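import Mathlib

/-!
Smoothness at a point of maps into spheres and into the circle.
-/

open Bundle Manifold ContDiff Set Filter Metric
open scoped Topology RealInnerProductSpace

set_option autoImplicit false

noncomputable section

namespace Pool.Agent.H510R2.HS

section sphere

variable {V : Type*} [NormedAddCommGroup V] [InnerProductSpace ℝ V]
  {E : Type*} [NormedAddCommGroup E] [NormedSpace ℝ E] {H : Type*} [TopologicalSpace H]
  {I : ModelWithCorners ℝ E H} {M : Type*} [TopologicalSpace M] [ChartedSpace H M]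

theorem contMDiffAt_sphere {n : ℕ} [Fact (Module.finrank ℝ V = n + 1)]
    {f : M → sphere (0 : V) 1} {x : M}
    (hf : ContMDiffAt I 𝓘(ℝ, V) ∞ (fun y => (f y : V)) x) : ContMDiffAt I (𝓡 n) ∞ f x := by
  rw [contMDiffAt_iff_target]
  refine ⟨Topology.IsInducing.subtypeVal.continuousAt_iff.2 hf.continuousAt, ?_⟩
  let U := (OrthonormalBasis.fromOrthogonalSpanSingleton (𝕜 := ℝ)
        n (ne_zero_of_mem_unit_sphere (-(f x)))).repr
  have h : ContDiff ℝ ∞ U := U.contDiff
  have H₁ : ContDiffAt ℝ ∞ (stereoToFun (-(f x) : V)) (f x : V) := by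
    refine (contDiffOn_stereoToFun (n := ∞)).contDiffAt ?_
    refine (isOpen_ne_fun (innerSL ℝ (-(f x) : V)).continuous continuous_const).mem_nhds ?_
    change innerSL ℝ (-(f x) : V) (f x : V) ≠ 1
    rw [innerSL_apply_apply, inner_neg_left, real_inner_self_eq_norm_sq, norm_eq_of_mem_sphere]
    norm_num
  have H₂ := (h.contDiffAt.comp _ H₁).contMDiffAt.comp x hf
  exact H₂

attribute [local instance] finrank_real_complex_fact'

theorem contMDiffAt_circle {f : M → Circle} {x : M}
    (hf : ContMDiffAt I 𝓘(ℝ, ℂ) ∞ (fun y => (f y : ℂ)) x) : ContMDiffAt I (𝓡 1) ∞ f x :=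
  contMDiffAt_sphere (V := ℂ) (n := 1) (f := fun y => (f y : sphere (0 : ℂ) 1)) hf

theorem contMDiff_coe_circle : ContMDiff (𝓡 1) 𝓘(ℝ, ℂ) ∞ (fun a : Circle => (a : ℂ)) :=
  contMDiff_coe_sphere (E := ℂ) (n := 1)

end sphere

end Pool.Agent.H510R2.HS
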