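import Pool.Agent.H510R2.HS.PB
import Pool.Agent.H510R2.HS.Sph
import Pool.Agent.H893R5.HO.Quat

/-!
The Hopf fibration `S³ → S²` as a smooth principal circle bundle.
-/

open Bundle Manifold ContDiff Set Filter Metric
open scoped Topology RealInnerProductSpace

set_option autoImplicit false

noncomputable section

namespace Pool.Agent.H510R2.HS

open Pool.Agent.H893R5.HO

/-- the vector of `ℝ⁴ = ℂ²` with complex coordinates `z`, `w` -/
def mk4 (z w : ℂ) : U4 := !₂[z.re, z.im, w.re, w.im]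

@[simp] theorem mk4_0 (z w : ℂ) : (mk4 z w) 0 = z.re := rfl
@[simp] theorem mk4_1 (z w : ℂ) : (mk4 z w) 1 = z.im := rfl
@[simp] theorem mk4_2 (z w : ℂ) : (mk4 z w) 2 = w.re := rfl
@[simp] theorem mk4_3 (z w : ℂ) : (mk4 z w) 3 = w.im := rfl

/-- first complex coordinate -/
def zc (x : U4) : ℂ := ⟨x 0, x 1⟩

/-- second complex coordinate -/
def wc (x : U4) : ℂ := ⟨x 2, x 3⟩

@[simp] theorem zc_re (x : U4) : (zc x).re = x 0 := rfl
@[simp] theorem zc_im (x : U4) : (zc x).im = x 1 := rfl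
@[simp] theorem wc_re (x : U4) : (wc x).re = x 2 := rfl
@[simp] theorem wc_im (x : U4) : (wc x).im = x 3 := rfl
@[simp] theorem zc_mk (z w : ℂ) : zc (mk4 z w) = z := rfl
@[simp] theorem wc_mk (z w : ℂ) : wc (mk4 z w) = w := rfl

theorem mk4_zc (x : U4) : mk4 (zc x) (wc x) = x := ext_U4 rfl rfl rfl rfl

theorem ext_zw {x y : U4} (h1 : zc x = zc y) (h2 : wc x = wc y) : x = y := by
  rw [← mk4_zc x, ← mk4_zc y, h1, h2]

theorem norm4 (x : U4) : ‖x‖ ^ 2 = Complex.normSq (zc x) + Complex.normSq (wc x) := by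
  rw [← real_inner_self_eq_norm_sq, inner_U4, Complex.normSq_apply, Complex.normSq_apply]
  simp
  ring

theorem norm3 (x : U3) : ‖x‖ ^ 2 = x 0 ^ 2 + x 1 ^ 2 + x 2 ^ 2 := by
  rw [← real_inner_self_eq_norm_sq, inner_U3]
  ring

theorem norm_eq_one_iff4 (x : U4) :
    ‖x‖ = 1 ↔ Complex.normSq (zc x) + Complex.normSq (wc x) = 1 := by
  rw [← norm4]
  constructor
  · intro h; rw [h]; norm_num
  · intro h
    have h0 := norm_nonneg x
    nlinarith

theorem norm_eq_one_iff3 (x : U3) : ‖x‖ = 1 ↔ x 0 ^ 2 + x 1 ^ 2 + x 2 ^ 2 = 1 := by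
  rw [← norm3]
  constructor
  · intro h; rw [h]; norm_num
  · intro h
    have h0 := norm_nonneg x
    nlinarith

/-- the Hopf map on `ℝ⁴` -/
def hV (x : U4) : U3 :=
  !₂[2 * (x 0 * x 2 + x 1 * x 3), 2 * (x 1 * x 2 - x 0 * x 3),
    x 0 ^ 2 + x 1 ^ 2 - (x 2 ^ 2 + x 3 ^ 2)]

@[simp] theorem hV_0 (x : U4) : (hV x) 0 = 2 * (x 0 * x 2 + x 1 * x 3) := rfl
@[simp] theorem hV_1 (x : U4) : (hV x) 1 = 2 * (x 1 * x 2 - x 0 * x 3) := rfl
@[simp] theorem hV_2 (x : U4) : (hV x) 2 = x 0 ^ 2 + x 1 ^ 2 - (x 2 ^ 2 + x 3 ^ 2) := rfl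

theorem normSq4 {x : U4} (h : ‖x‖ = 1) : x 0 ^ 2 + x 1 ^ 2 + (x 2 ^ 2 + x 3 ^ 2) = 1 := by
  rw [norm_eq_one_iff4, Complex.normSq_apply, Complex.normSq_apply] at h
  simp at h
  nlinarith

theorem norm_hV {x : U4} (h : ‖x‖ = 1) : ‖hV x‖ = 1 := by
  rw [norm_eq_one_iff3]
  have h1 := normSq4 h
  simp
  have : (2 * (x 0 * x 2 + x 1 * x 3)) ^ 2 + (2 * (x 1 * x 2 - x 0 * x 3)) ^ 2 +
      (x 0 ^ 2 + x 1 ^ 2 - (x 2 ^ 2 + x 3 ^ 2)) ^ 2 =
      (x 0 ^ 2 + x 1 ^ 2 + (x 2 ^ 2 + x 3 ^ 2)) ^ 2 := by ring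
  rw [this, h1]
  norm_num

/-- the circle action on `ℝ⁴ = ℂ²` -/
def aV (x : U4) (a : ℂ) : U4 := mk4 (zc x * a) (wc x * a)

theorem norm_aV {x : U4} (h : ‖x‖ = 1) (a : Circle) : ‖aV x a‖ = 1 := by
  rw [norm_eq_one_iff4] at h ⊢
  simp only [aV, zc_mk, wc_mk, map_mul, Circle.normSq_coe, mul_one]
  exact h

/-- `S³` -/
abbrev S3 : Type := sphere (0 : U4) 1

/-- `S²` -/
abbrev S2 : Type := sphere (0 : U3) 1

theorem nrm {V : Type*} [NormedAddCommGroup V] (x : sphere (0 : V) 1) : ‖(x : V)‖ = 1 :=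
  norm_eq_of_mem_sphere x

/-- the Hopf map -/
def hopf (x : S3) : S2 := ⟨hV x, by rw [mem_sphere_zero_iff_norm]; exact norm_hV (nrm x)⟩

/-- the circle action on `S³` -/
def act3 (x : S3) (a : Circle) : S3 :=
  ⟨aV x a, by rw [mem_sphere_zero_iff_norm]; exact norm_aV (nrm x) a⟩

theorem coe_hopf (x : S3) : (hopf x : U3) = hV x := rfl

theorem coe_act3 (x : S3) (a : Circle) : (act3 x a : U4) = aV x a := rfl

theorem S3_ext {x y : S3} (h1 : zc x = zc y) (h2 : wc x = wc y) : x = y :=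
  Subtype.ext (ext_zw h1 h2)

theorem contDiff_hV : ContDiff ℝ ∞ hV := by
  rw [contDiff_euclidean]
  intro i
  fin_cases i
  · change ContDiff ℝ ∞ fun x : U4 => 2 * (x 0 * x 2 + x 1 * x 3)
    fun_prop
  · change ContDiff ℝ ∞ fun x : U4 => 2 * (x 1 * x 2 - x 0 * x 3)
    fun_prop
  · change ContDiff ℝ ∞ fun x : U4 => x 0 ^ 2 + x 1 ^ 2 - (x 2 ^ 2 + x 3 ^ 2)
    fun_prop

theorem contDiff_aV : ContDiff ℝ ∞ (fun q : U4 × ℂ => aV q.1 q.2) := by
  have hre : ContDiff ℝ ∞ (fun q : U4 × ℂ => q.2.re) := Complex.reCLM.contDiff.comp contDiff_snd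
  have him : ContDiff ℝ ∞ (fun q : U4 × ℂ => q.2.im) := Complex.imCLM.contDiff.comp contDiff_snd
  have hx : ∀ i : Fin 4, ContDiff ℝ ∞ (fun q : U4 × ℂ => q.1 i) := fun i =>
    (contDiff_euclidean.1 (contDiff_id (𝕜 := ℝ) (E := U4)) i).comp contDiff_fst
  rw [contDiff_euclidean]
  intro i
  fin_cases i
  · change ContDiff ℝ ∞ fun q : U4 × ℂ => q.1 0 * q.2.re - q.1 1 * q.2.im
    exact ((hx 0).mul hre).sub ((hx 1).mul him)
  · change ContDiff ℝ ∞ fun q : U4 × ℂ => q.1 0 * q.2.im + q.1 1 * q.2.re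
    exact ((hx 0).mul him).add ((hx 1).mul hre)
  · change ContDiff ℝ ∞ fun q : U4 × ℂ => q.1 2 * q.2.re - q.1 3 * q.2.im
    exact ((hx 2).mul hre).sub ((hx 3).mul him)
  · change ContDiff ℝ ∞ fun q : U4 × ℂ => q.1 2 * q.2.im + q.1 3 * q.2.re
    exact ((hx 2).mul him).add ((hx 3).mul hre)

theorem contDiff_zc : ContDiff ℝ ∞ zc := by
  have hx : ∀ i : Fin 4, ContDiff ℝ ∞ (fun q : U4 => q i) := fun i =>
    (contDiff_euclidean.1 (contDiff_id (𝕜 := ℝ) (E := U4)) i)
  have h : ContDiff ℝ ∞ (fun x : U4 => ((x 0 : ℝ) : ℂ) + (x 1 : ℝ) * Complex.I) :=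
    (Complex.ofRealCLM.contDiff.comp (hx 0)).add
      ((Complex.ofRealCLM.contDiff.comp (hx 1)).mul contDiff_const)
  have e : zc = fun x : U4 => ((x 0 : ℝ) : ℂ) + (x 1 : ℝ) * Complex.I := by
    funext x
    apply Complex.ext <;> simp
  rw [e]
  exact h

theorem contDiff_wc : ContDiff ℝ ∞ wc := by
  have hx : ∀ i : Fin 4, ContDiff ℝ ∞ (fun q : U4 => q i) := fun i =>
    (contDiff_euclidean.1 (contDiff_id (𝕜 := ℝ) (E := U4)) i)
  have h : ContDiff ℝ ∞ (fun x : U4 => ((x 2 : ℝ) : ℂ) + (x 3 : ℝ) * Complex.I) :=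
    (Complex.ofRealCLM.contDiff.comp (hx 2)).add
      ((Complex.ofRealCLM.contDiff.comp (hx 3)).mul contDiff_const)
  have e : wc = fun x : U4 => ((x 2 : ℝ) : ℂ) + (x 3 : ℝ) * Complex.I := by
    funext x
    apply Complex.ext <;> simp
  rw [e]
  exact h

/-- radial projection to the circle -/
def toC (z : ℂ) : Circle :=
  if h : z = 0 then 1 else ⟨(‖z‖⁻¹ : ℝ) • z, by
    change _ ∈ sphere (0 : ℂ) 1
    rw [mem_sphere_zero_iff_norm, norm_smul, norm_inv, norm_norm]
    exact inv_mul_cancel₀ (norm_ne_zero_iff.2 h)⟩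

theorem coe_toC {z : ℂ} (h : z ≠ 0) : (toC z : ℂ) = (‖z‖⁻¹ : ℝ) • z := by
  rw [toC, dif_neg h]

theorem toC_mul {z : ℂ} (h : z ≠ 0) (a : Circle) : toC (z * a) = toC z * a := by
  have h2 : z * (a : ℂ) ≠ 0 := mul_ne_zero h a.coe_ne_zero
  apply Circle.ext
  rw [Circle.coe_mul, coe_toC h, coe_toC h2, norm_mul, Circle.norm_coe, mul_one, smul_mul_assoc]

theorem toC_real {r : ℝ} (h : 0 < r) : toC (r : ℂ) = 1 := by
  have h2 : (r : ℂ) ≠ 0 := by exact_mod_cast h.ne'
  apply Circle.ext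
  rw [coe_toC h2, Complex.norm_real, Real.norm_of_nonneg h.le, Circle.coe_one, Complex.real_smul]
  push_cast
  exact inv_mul_cancel₀ h2

theorem contDiffAt_nz {z : ℂ} (h : z ≠ 0) :
    ContDiffAt ℝ ∞ (fun z : ℂ => (‖z‖⁻¹ : ℝ) • z) z :=
  ((contDiffAt_norm ℝ h).inv (norm_ne_zero_iff.2 h)).smul contDiffAt_id

/-- radial projection composed with a smooth complex function on `S³` -/
theorem smooth_toC {F : U4 → ℂ} (hF : ContDiff ℝ ∞ F) :
    ContMDiffOn (𝓡 3) (𝓡 1) ∞ (fun x : S3 => toC (F x)) {x | F x ≠ 0} := by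
  intro x hx
  have hx' : F (x : U4) ≠ 0 := hx
  apply ContMDiffAt.contMDiffWithinAt
  apply contMDiffAt_circle
  have h1 : ContDiffAt ℝ ∞ (fun v : U4 => (‖F v‖⁻¹ : ℝ) • F v) (x : U4) :=
    (contDiffAt_nz hx').comp (x : U4) hF.contDiffAt
  have h2 : ContMDiffAt (𝓡 3) 𝓘(ℝ, ℂ) ∞ (fun y : S3 => (‖F y‖⁻¹ : ℝ) • F y) x :=
    h1.contMDiffAt.comp x (contMDiff_coe_sphere (n := 3) (E := U4)).contMDiffAt
  refine h2.congr_of_eventuallyEq ?_
  have h3 : ∀ᶠ y : S3 in 𝓝 x, F y ≠ 0 :=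
    (hF.continuous.comp continuous_subtype_val).continuousAt.eventually_ne hx'
  filter_upwards [h3] with y hy
  exact coe_toC hy

/-- normalised inclusion into `S³` -/
def toS (v : U4) : S3 := if h : ‖v‖ = 1 then ⟨v, by rwa [mem_sphere_zero_iff_norm]⟩ else
  ⟨mk4 1 0, by
    rw [mem_sphere_zero_iff_norm, norm_eq_one_iff4]
    simp⟩

theorem coe_toS {v : U4} (h : ‖v‖ = 1) : (toS v : U4) = v := by
  rw [toS, dif_pos h]

theorem smooth_toS {F : U3 → U4} {U : Set S2} (hU : IsOpen U)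
    (hF : ∀ b ∈ U, ContDiffAt ℝ ∞ F (b : U3)) (hn : ∀ b ∈ U, ‖F (b : U3)‖ = 1) :
    ContMDiffOn (𝓡 2) (𝓡 3) ∞ (fun b : S2 => toS (F b)) U := by
  intro b hb
  apply ContMDiffAt.contMDiffWithinAt
  apply contMDiffAt_sphere
  have h2 : ContMDiffAt (𝓡 2) 𝓘(ℝ, U4) ∞ (fun y : S2 => F y) b :=
    (hF b hb).contMDiffAt.comp b (contMDiff_coe_sphere (n := 2) (E := U3)).contMDiffAt
  refine h2.congr_of_eventuallyEq ?_
  filter_upwards [hU.mem_nhds hb] with y hy
  exact coe_toS (hn y hy)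

/-- local section near the north pole -/
def sP (h : U3) : U4 :=
  mk4 ((√((1 + h 2) / 2) : ℝ)) (⟨h 0 / (2 * √((1 + h 2) / 2)), -(h 1 / (2 * √((1 + h 2) / 2)))⟩)

/-- local section near the south pole -/
def sM (h : U3) : U4 :=
  mk4 (⟨h 0 / (2 * √((1 - h 2) / 2)), h 1 / (2 * √((1 - h 2) / 2))⟩) ((√((1 - h 2) / 2) : ℝ))

theorem contDiffAt_sP {h : U3} (hh : 0 < 1 + h 2) : ContDiffAt ℝ ∞ sP h := by
  have hx : ∀ i : Fin 3, ContDiffAt ℝ ∞ (fun q : U3 => q i) h := fun i =>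
    (contDiff_euclidean.1 (contDiff_id (𝕜 := ℝ) (E := U3)) i).contDiffAt
  have hr : ContDiffAt ℝ ∞ (fun q : U3 => √((1 + q 2) / 2)) h :=
    ((contDiffAt_const.add (hx 2)).div_const 2).sqrt (by linarith [half_pos hh] : (1 + h 2) / 2 ≠ 0)
  have hr0 : 0 < √((1 + h 2) / 2) := Real.sqrt_pos.2 (half_pos hh)
  have h2r : ContDiffAt ℝ ∞ (fun q : U3 => 2 * √((1 + q 2) / 2)) h := contDiffAt_const.mul hr
  have hne : 2 * √((1 + h 2) / 2) ≠ 0 := by positivity
  rw [contDiffAt_euclidean]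
  intro i
  fin_cases i
  · exact hr
  · exact contDiffAt_const
  · exact (hx 0).div h2r hne
  · exact ((hx 1).div h2r hne).neg

theorem contDiffAt_sM {h : U3} (hh : 0 < 1 - h 2) : ContDiffAt ℝ ∞ sM h := by
  have hx : ∀ i : Fin 3, ContDiffAt ℝ ∞ (fun q : U3 => q i) h := fun i =>
    (contDiff_euclidean.1 (contDiff_id (𝕜 := ℝ) (E := U3)) i).contDiffAt
  have hr : ContDiffAt ℝ ∞ (fun q : U3 => √((1 - q 2) / 2)) h :=
    ((contDiffAt_const.sub (hx 2)).div_const 2).sqrt (by linarith [half_pos hh] : (1 - h 2) / 2 ≠ 0)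
  have hr0 : 0 < √((1 - h 2) / 2) := Real.sqrt_pos.2 (half_pos hh)
  have h2r : ContDiffAt ℝ ∞ (fun q : U3 => 2 * √((1 - q 2) / 2)) h := contDiffAt_const.mul hr
  have hne : 2 * √((1 - h 2) / 2) ≠ 0 := by positivity
  rw [contDiffAt_euclidean]
  intro i
  fin_cases i
  · exact (hx 0).div h2r hne
  · exact (hx 1).div h2r hne
  · exact hr
  · exact contDiffAt_const

theorem sP_spec {h : U3} (h1 : ‖h‖ = 1) (hh : 0 < 1 + h 2) : ‖sP h‖ = 1 ∧ hV (sP h) = h := by
  rw [norm_eq_one_iff3] at h1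
  have hr0 : 0 < √((1 + h 2) / 2) := Real.sqrt_pos.2 (half_pos hh)
  have hr2 : √((1 + h 2) / 2) ^ 2 = (1 + h 2) / 2 := Real.sq_sqrt (half_pos hh).le
  set r := √((1 + h 2) / 2) with hr
  have e2 : (h 0 / (2 * r)) ^ 2 + (h 1 / (2 * r)) ^ 2 = (1 - h 2) / 2 := by
    rw [div_pow, div_pow, ← add_div, mul_pow, hr2]
    rw [div_eq_iff (by positivity)]
    nlinarith
  have c0 : (sP h) 0 = r := rfl
  have c1 : (sP h) 1 = 0 := rfl
  have c2 : (sP h) 2 = h 0 / (2 * r) := rfl
  have c3 : (sP h) 3 = -(h 1 / (2 * r)) := rfl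
  constructor
  · rw [norm_eq_one_iff4, Complex.normSq_apply, Complex.normSq_apply, zc_re, zc_im, wc_re, wc_im,
      c0, c1, c2, c3]
    nlinarith
  · refine ext_U3 ?_ ?_ ?_
    · rw [hV_0, c0, c1, c2, c3]
      field_simp
      ring
    · rw [hV_1, c0, c1, c2, c3]
      field_simp
      ring
    · rw [hV_2, c0, c1, c2, c3]
      nlinarith

theorem sM_spec {h : U3} (h1 : ‖h‖ = 1) (hh : 0 < 1 - h 2) : ‖sM h‖ = 1 ∧ hV (sM h) = h := by
  rw [norm_eq_one_iff3] at h1
  have hr0 : 0 < √((1 - h 2) / 2) := Real.sqrt_pos.2 (half_pos hh)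
  have hr2 : √((1 - h 2) / 2) ^ 2 = (1 - h 2) / 2 := Real.sq_sqrt (half_pos hh).le
  set r := √((1 - h 2) / 2) with hr
  have e2 : (h 0 / (2 * r)) ^ 2 + (h 1 / (2 * r)) ^ 2 = (1 + h 2) / 2 := by
    rw [div_pow, div_pow, ← add_div, mul_pow, hr2]
    rw [div_eq_iff (by positivity)]
    nlinarith
  have c0 : (sM h) 0 = h 0 / (2 * r) := rfl
  have c1 : (sM h) 1 = h 1 / (2 * r) := rfl
  have c2 : (sM h) 2 = r := rfl
  have c3 : (sM h) 3 = 0 := rfl
  constructor
  · rw [norm_eq_one_iff4, Complex.normSq_apply, Complex.normSq_apply, zc_re, zc_im, wc_re, wc_im,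
      c0, c1, c2, c3]
    nlinarith
  · refine ext_U3 ?_ ?_ ?_
    · rw [hV_0, c0, c1, c2, c3]
      field_simp
      ring
    · rw [hV_1, c0, c1, c2, c3]
      field_simp
      ring
    · rw [hV_2, c0, c1, c2, c3]
      nlinarith

/-- the fibres of the Hopf map -/
theorem fib_hV {x y : U4} (hx : ‖x‖ = 1) (hy : ‖y‖ = 1) :
    hV x = hV y ↔ ∃ a : Circle, aV x a = y := by
  constructor
  · intro h
    have h0 : 2 * (x 0 * x 2 + x 1 * x 3) = 2 * (y 0 * y 2 + y 1 * y 3) :=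
      congrArg (fun v : U3 => v 0) h
    have h1 : 2 * (x 1 * x 2 - x 0 * x 3) = 2 * (y 1 * y 2 - y 0 * y 3) :=
      congrArg (fun v : U3 => v 1) h
    have h2 : x 0 ^ 2 + x 1 ^ 2 - (x 2 ^ 2 + x 3 ^ 2) = y 0 ^ 2 + y 1 ^ 2 - (y 2 ^ 2 + y 3 ^ 2) :=
      congrArg (fun v : U3 => v 2) h
    have n1 := normSq4 hx
    have n2 := normSq4 hy
    have hz : Complex.normSq (zc x) = Complex.normSq (zc y) := by
      rw [Complex.normSq_apply, Complex.normSq_apply]
      simp
      nlinarith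
    have hw : Complex.normSq (wc x) = Complex.normSq (wc y) := by
      rw [Complex.normSq_apply, Complex.normSq_apply]
      simp
      nlinarith
    have hzw : zc x * (starRingEnd ℂ) (wc x) = zc y * (starRingEnd ℂ) (wc y) := by
      apply Complex.ext
      · simp
        linarith
      · simp
        linarith
    have hzz : zc x * (starRingEnd ℂ) (zc x) = zc y * (starRingEnd ℂ) (zc y) := by
      rw [Complex.mul_conj, Complex.mul_conj, hz]
    have hww : wc x * (starRingEnd ℂ) (wc x) = wc y * (starRingEnd ℂ) (wc y) := by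
      rw [Complex.mul_conj, Complex.mul_conj, hw]
    have nz : ‖zc x‖ = ‖zc y‖ := by
      rw [← Complex.sq_norm, ← Complex.sq_norm] at hz
      exact (sq_eq_sq₀ (norm_nonneg _) (norm_nonneg _)).1 hz
    have nw : ‖wc x‖ = ‖wc y‖ := by
      rw [← Complex.sq_norm, ← Complex.sq_norm] at hw
      exact (sq_eq_sq₀ (norm_nonneg _) (norm_nonneg _)).1 hw
    by_cases hx0 : zc x = 0
    · have hy0 : zc y = 0 := by
        rw [← norm_eq_zero, ← nz, hx0, norm_zero]
      have hwx : wc x ≠ 0 := by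
        intro h3
        rw [norm_eq_one_iff4, hx0, h3] at hx
        simp at hx
      refine ⟨⟨wc y / wc x, ?_⟩, ?_⟩
      · change _ ∈ sphere (0 : ℂ) 1
        rw [mem_sphere_zero_iff_norm, norm_div, nw]
        exact div_self (by rw [← nw]; exact norm_ne_zero_iff.2 hwx)
      · apply ext_zw
        · change zc x * _ = zc y
          rw [hx0, hy0, zero_mul]
        · change wc x * (wc y / wc x) = wc y
          exact mul_div_cancel₀ _ hwx
    · have hy0 : zc y ≠ 0 := by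
        rw [← norm_ne_zero_iff, ← nz]
        exact norm_ne_zero_iff.2 hx0
      refine ⟨⟨zc y / zc x, ?_⟩, ?_⟩
      · change _ ∈ sphere (0 : ℂ) 1
        rw [mem_sphere_zero_iff_norm, norm_div, nz]
        exact div_self (by rw [← nz]; exact norm_ne_zero_iff.2 hx0)
      · apply ext_zw
        · change zc x * (zc y / zc x) = zc y
          exact mul_div_cancel₀ _ hx0
        · change wc x * (zc y / zc x) = wc y
          have hcx : (starRingEnd ℂ) (zc x) ≠ 0 := (map_ne_zero _).2 hx0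
          have hcy : (starRingEnd ℂ) (zc y) ≠ 0 := (map_ne_zero _).2 hy0
          have hzw' : (starRingEnd ℂ) (zc x) * wc x = (starRingEnd ℂ) (zc y) * wc y := by
            have := congrArg (starRingEnd ℂ) hzw
            simpa using this
          rw [mul_div_assoc', div_eq_iff hx0]
          apply mul_left_cancel₀ hcy
          calc (starRingEnd ℂ) (zc y) * (wc x * zc y)
              = (zc y * (starRingEnd ℂ) (zc y)) * wc x := by ring
            _ = (zc x * (starRingEnd ℂ) (zc x)) * wc x := by rw [hzz]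
            _ = zc x * ((starRingEnd ℂ) (zc x) * wc x) := by ring
            _ = zc x * ((starRingEnd ℂ) (zc y) * wc y) := by rw [hzw']
            _ = (starRingEnd ℂ) (zc y) * (wc y * zc x) := by ring
  · rintro ⟨a, rfl⟩
    have ha : (a : ℂ).re * (a : ℂ).re + (a : ℂ).im * (a : ℂ).im = 1 := by
      rw [← Complex.normSq_apply, Circle.normSq_coe]
    have c0 : (aV x a) 0 = x 0 * (a : ℂ).re - x 1 * (a : ℂ).im := rfl
    have c1 : (aV x a) 1 = x 0 * (a : ℂ).im + x 1 * (a : ℂ).re := rfl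
    have c2 : (aV x a) 2 = x 2 * (a : ℂ).re - x 3 * (a : ℂ).im := rfl
    have c3 : (aV x a) 3 = x 2 * (a : ℂ).im + x 3 * (a : ℂ).re := rfl
    refine ext_U3 ?_ ?_ ?_
    · rw [hV_0, hV_0, c0, c1, c2, c3]
      linear_combination (-2 * (x 0 * x 2 + x 1 * x 3)) * ha
    · rw [hV_1, hV_1, c0, c1, c2, c3]
      linear_combination (-2 * (x 1 * x 2 - x 0 * x 3)) * ha
    · rw [hV_2, hV_2, c0, c1, c2, c3]
      linear_combination (-(x 0 ^ 2 + x 1 ^ 2 - (x 2 ^ 2 + x 3 ^ 2))) * ha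

/-- The Hopf fibration `S³ → S²` as a smooth principal circle bundle. -/
def hopfPB : PrincipalBundle (𝓡 3) S3 (𝓡 2) S2 (𝓡 1) Circle where
  proj := hopf
  act := act3
  smooth_proj x := contMDiffAt_sphere
    ((contDiff_hV.contMDiff.comp (contMDiff_coe_sphere (n := 3) (E := U4))).contMDiffAt)
  smooth_act := by
    intro q
    apply contMDiffAt_sphere
    have h1 : ContMDiff ((𝓡 3).prod (𝓡 1)) 𝓘(ℝ, U4 × ℂ) ∞
        (fun q : S3 × Circle => ((q.1 : U4), (q.2 : ℂ))) :=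
      ((contMDiff_coe_sphere (n := 3) (E := U4)).comp contMDiff_fst).prodMk_space
        (contMDiff_coe_circle.comp contMDiff_snd)
    exact (contDiff_aV.contMDiff.comp h1).contMDiffAt
  act_one x := by
    apply S3_ext
    · change zc x * ((1 : Circle) : ℂ) = zc x
      rw [Circle.coe_one, mul_one]
    · change wc x * ((1 : Circle) : ℂ) = wc x
      rw [Circle.coe_one, mul_one]
  act_mul x a b := by
    apply S3_ext
    · change zc x * ((a * b : Circle) : ℂ) = zc x * a * b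
      rw [Circle.coe_mul, mul_assoc]
    · change wc x * ((a * b : Circle) : ℂ) = wc x * a * b
      rw [Circle.coe_mul, mul_assoc]
  free x a h := by
    have h1 : zc x * (a : ℂ) = zc x := congrArg (fun y : S3 => zc y) h
    have h2 : wc x * (a : ℂ) = wc x := congrArg (fun y : S3 => wc y) h
    apply Circle.ext
    rw [Circle.coe_one]
    by_cases hz : zc x = 0
    · have hw : wc x ≠ 0 := by
        intro h3
        have := nrm x
        rw [norm_eq_one_iff4, hz, h3] at this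
        simp at this
      exact mul_left_cancel₀ hw (by rw [h2, mul_one])
    · exact mul_left_cancel₀ hz (by rw [h1, mul_one])
  surj b := by
    by_cases hb : 0 < 1 + (b : U3) 2
    · obtain ⟨h1, h2⟩ := sP_spec (nrm b) hb
      exact ⟨⟨sP b, by rwa [mem_sphere_zero_iff_norm]⟩, Subtype.ext h2⟩
    · have hb' : 0 < 1 - (b : U3) 2 := by linarith
      obtain ⟨h1, h2⟩ := sM_spec (nrm b) hb'
      exact ⟨⟨sM b, by rwa [mem_sphere_zero_iff_norm]⟩, Subtype.ext h2⟩
  fib x y := by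
    rw [Subtype.ext_iff]
    change hV x = hV y ↔ _
    rw [fib_hV (nrm x) (nrm y)]
    exact exists_congr fun a => (Subtype.ext_iff (a1 := act3 x a) (a2 := y)).symm
  loc b₀ := by
    have hc : Continuous fun b : S2 => (b : U3) 2 :=
      (contDiff_euclidean.1 (contDiff_id (𝕜 := ℝ) (E := U3) (n := 0)) 2).continuous.comp
        continuous_subtype_val
    by_cases hb₀ : 0 < 1 + (b₀ : U3) 2
    · have hU : IsOpen {b : S2 | 0 < 1 + (b : U3) 2} :=
        isOpen_lt continuous_const (continuous_const.add hc)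
      refine ⟨{b : S2 | 0 < 1 + (b : U3) 2}, fun x => toC (zc x), fun b => toS (sP b), hU, hb₀,
        ?_, ?_, ?_, ?_⟩
      · refine (smooth_toC contDiff_zc).mono ?_
        intro x hx h0
        have hx' : 0 < 1 + (hV (x : U4)) 2 := hx
        have h1 : (x : U4) 0 = 0 := congrArg Complex.re h0
        have h2 : (x : U4) 1 = 0 := congrArg Complex.im h0
        have h3 := normSq4 (nrm x)
        rw [hV_2] at hx'
        rw [h1, h2] at hx' h3
        nlinarith
      · exact smooth_toS hU (fun b hb => contDiffAt_sP hb) (fun b hb => (sP_spec (nrm b) hb).1)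
      · intro b hb
        obtain ⟨h1, h2⟩ := sP_spec (nrm b) hb
        refine ⟨?_, ?_⟩
        · apply Subtype.ext
          rw [coe_hopf, coe_toS h1, h2]
        · change toC (zc (toS (sP b) : U4)) = 1
          rw [coe_toS h1]
          exact toC_real (Real.sqrt_pos.2 (half_pos hb))
      · intro x hx a
        have hz : zc x ≠ 0 := by
          intro h0
          have hx' : 0 < 1 + (hV (x : U4)) 2 := hx
          have h1 : (x : U4) 0 = 0 := congrArg Complex.re h0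
          have h2 : (x : U4) 1 = 0 := congrArg Complex.im h0
          have h3 := normSq4 (nrm x)
          rw [hV_2] at hx'
          rw [h1, h2] at hx' h3
          nlinarith
        exact toC_mul hz a
    · have hb₁ : 0 < 1 - (b₀ : U3) 2 := by linarith
      have hU : IsOpen {b : S2 | 0 < 1 - (b : U3) 2} :=
        isOpen_lt continuous_const (continuous_const.sub hc)
      refine ⟨{b : S2 | 0 < 1 - (b : U3) 2}, fun x => toC (wc x), fun b => toS (sM b), hU, hb₁,
        ?_, ?_, ?_, ?_⟩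
      · refine (smooth_toC contDiff_wc).mono ?_
        intro x hx h0
        have hx' : 0 < 1 - (hV (x : U4)) 2 := hx
        have h1 : (x : U4) 2 = 0 := congrArg Complex.re h0
        have h2 : (x : U4) 3 = 0 := congrArg Complex.im h0
        have h3 := normSq4 (nrm x)
        rw [hV_2] at hx'
        rw [h1, h2] at hx' h3
        nlinarith
      · exact smooth_toS hU (fun b hb => contDiffAt_sM hb) (fun b hb => (sM_spec (nrm b) hb).1)
      · intro b hb
        obtain ⟨h1, h2⟩ := sM_spec (nrm b) hb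
        refine ⟨?_, ?_⟩
        · apply Subtype.ext
          rw [coe_hopf, coe_toS h1, h2]
        · change toC (wc (toS (sM b) : U4)) = 1
          rw [coe_toS h1]
          exact toC_real (Real.sqrt_pos.2 (half_pos hb))
      · intro x hx a
        have hz : wc x ≠ 0 := by
          intro h0
          have hx' : 0 < 1 - (hV (x : U4)) 2 := hx
          have h1 : (x : U4) 2 = 0 := congrArg Complex.re h0
          have h2 : (x : U4) 3 = 0 := congrArg Complex.im h0
          have h3 := normSq4 (nrm x)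
          rw [hV_2] at hx'
          rw [h1, h2] at hx' h3
          nlinarith
        exact toC_mul hz a

/-- The principal `T²`-bundle `S³ × S³ → S² × S²` (product of two Hopf fibrations). -/
def hopf2PB : PrincipalBundle ((𝓡 3).prod (𝓡 3)) (S3 × S3) ((𝓡 2).prod (𝓡 2)) (S2 × S2)
    ((𝓡 1).prod (𝓡 1)) (Circle × Circle) :=
  hopfPB.prod hopfPB

end Pool.Agent.H510R2.HS
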