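import Pool.Agent.H486R3.HS.Final
import Pool.Agent.H510R2.HS.Comm
import Pool.Agent.H510R2.HS.Hopf

/-!
Corollaries of a Riemannian metric of positive sectional curvature on `S³ × S³`:
commuting independent vector fields and free actions of the two-torus on closed manifolds of
positive sectional curvature.
-/

open Bundle Manifold ContDiff Metric
open scoped Topology RealInnerProductSpace

set_option autoImplicit false

noncomputable section

namespace Pool.Agent.H510R2.HS

open Pool.Agent.H821R2 Pool.Agent.H821R3 Pool.Agent.H893R5.HO

/-- The smooth manifold `M` (with model `I`) carries a smooth Riemannian metric whose sectional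
curvatures are all positive. -/
def HasPosSec {E : Type} [NormedAddCommGroup E] [NormedSpace ℝ E] [FiniteDimensional ℝ E]
    {H : Type} [TopologicalSpace H] (I : ModelWithCorners ℝ E H)
    (M : Type) [TopologicalSpace M] [ChartedSpace H M] [IsManifold I ∞ M] : Prop :=
  ∃ (g : ContMDiffRiemannianMetric I ∞ E (fun x : M => TangentSpace I x))
    (cov : CovariantDerivative I E (TangentSpace I : M → Type _)) (R : CurvField I M),
    IsLeviCivita g cov ∧ IsRiemannTensor cov R ∧
      ∀ (p : M) (u v : TangentSpace I p), OrthoPair g p u v → 0 < sec g R p u v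

/-- A closed connected manifold of positive sectional curvature with two commuting vector fields
which are linearly independent at every point. -/
def CommutingFieldsPos : Prop :=
  ∃ (E : Type) (_ : NormedAddCommGroup E) (_ : NormedSpace ℝ E) (_ : FiniteDimensional ℝ E)
    (H : Type) (_ : TopologicalSpace H) (I : ModelWithCorners ℝ E H)
    (M : Type) (_ : TopologicalSpace M) (_ : ChartedSpace H M) (_ : IsManifold I ∞ M),
    I.Boundaryless ∧ CompactSpace M ∧ T2Space M ∧ ConnectedSpace M ∧ HasPosSec I M ∧
      HasCommutingPair I M

/-- A principal bundle with structure group the torus `Circle × Circle` whose total space is a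
closed connected manifold with a Riemannian metric of positive sectional curvature. -/
def TorusBundlePos : Prop :=
  ∃ (E : Type) (_ : NormedAddCommGroup E) (_ : NormedSpace ℝ E) (_ : FiniteDimensional ℝ E)
    (H : Type) (_ : TopologicalSpace H) (I : ModelWithCorners ℝ E H)
    (P : Type) (_ : TopologicalSpace P) (_ : ChartedSpace H P) (_ : IsManifold I ∞ P)
    (E' : Type) (_ : NormedAddCommGroup E') (_ : NormedSpace ℝ E') (_ : FiniteDimensional ℝ E')
    (H' : Type) (_ : TopologicalSpace H') (I' : ModelWithCorners ℝ E' H')
    (B : Type) (_ : TopologicalSpace B) (_ : ChartedSpace H' B) (_ : IsManifold I' ∞ B),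
    (I.Boundaryless ∧ CompactSpace P ∧ T2Space P ∧ ConnectedSpace P) ∧
    (I'.Boundaryless ∧ CompactSpace B ∧ T2Space B ∧ ConnectedSpace B) ∧ HasPosSec I P ∧
      Nonempty (PrincipalBundle I P I' B ((𝓡 1).prod (𝓡 1)) (Circle × Circle))

theorem commutingFieldsPos_of (h : H486HS.PosS33) : CommutingFieldsPos := by
  obtain ⟨g, cov, R, h1, h2, h3⟩ := h
  exact ⟨EuclideanSpace ℝ (Fin 3) × EuclideanSpace ℝ (Fin 3), inferInstance, inferInstance,
    inferInstance, ModelProd (EuclideanSpace ℝ (Fin 3)) (EuclideanSpace ℝ (Fin 3)), inferInstance,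
    I33, S33, inferInstance, inferInstance, inferInstance, inferInstance, inferInstance,
    inferInstance, H486HS.s33_connected, ⟨g, cov, R, h1, h2, h3⟩, hasCommutingPair_S33⟩

theorem s22_connected : ConnectedSpace (S2 × S2) := by
  have h : ConnectedSpace (sphere (0 : U3) 1) := by
    apply Subtype.connectedSpace
    apply isConnected_sphere
    · rw [← Module.finrank_eq_rank]
      simp
    · norm_num
  infer_instance

theorem torusBundlePos_of (h : H486HS.PosS33) : TorusBundlePos := by
  obtain ⟨g, cov, R, h1, h2, h3⟩ := h
  exact ⟨EuclideanSpace ℝ (Fin 3) × EuclideanSpace ℝ (Fin 3), inferInstance, inferInstance,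
    inferInstance, ModelProd (EuclideanSpace ℝ (Fin 3)) (EuclideanSpace ℝ (Fin 3)), inferInstance,
    I33, S33, inferInstance, inferInstance, inferInstance,
    EuclideanSpace ℝ (Fin 2) × EuclideanSpace ℝ (Fin 2), inferInstance, inferInstance,
    inferInstance, ModelProd (EuclideanSpace ℝ (Fin 2)) (EuclideanSpace ℝ (Fin 2)), inferInstance,
    (𝓡 2).prod (𝓡 2), S2 × S2, inferInstance, inferInstance, inferInstance,
    ⟨inferInstance, inferInstance, inferInstance, H486HS.s33_connected⟩,
    ⟨inferInstance, inferInstance, inferInstance, s22_connected⟩, ⟨g, cov, R, h1, h2, h3⟩,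
    ⟨hopf2PB⟩⟩

/-- The smooth manifold `M` is compact and connected, it carries a smooth Riemannian metric of
positive sectional curvature, and it carries two commuting smooth vector fields which are linearly
independent at every point. -/
def PosWithCommutingPair {E : Type} [NormedAddCommGroup E] [NormedSpace ℝ E]
    [FiniteDimensional ℝ E] {H : Type} [TopologicalSpace H] (I : ModelWithCorners ℝ E H)
    (M : Type) [TopologicalSpace M] [ChartedSpace H M] [IsManifold I ∞ M] : Prop :=
  CompactSpace M ∧ ConnectedSpace M ∧ HasPosSec I M ∧ HasCommutingPair I M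

/-- The smooth manifold `P` is compact and connected, it carries a smooth Riemannian metric of
positive sectional curvature, and it is the total space of a smooth principal bundle over `B` with
structure group the two-torus `Circle × Circle`. -/
def PosTorusBundle {E : Type} [NormedAddCommGroup E] [NormedSpace ℝ E]
    [FiniteDimensional ℝ E] {H : Type} [TopologicalSpace H] (I : ModelWithCorners ℝ E H)
    (P : Type) [TopologicalSpace P] [ChartedSpace H P] [IsManifold I ∞ P]
    {E' : Type} [NormedAddCommGroup E'] [NormedSpace ℝ E'] {H' : Type} [TopologicalSpace H']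
    (I' : ModelWithCorners ℝ E' H') (B : Type) [TopologicalSpace B] [ChartedSpace H' B] : Prop :=
  CompactSpace P ∧ ConnectedSpace P ∧ HasPosSec I P ∧
    Nonempty (PrincipalBundle I P I' B ((𝓡 1).prod (𝓡 1)) (Circle × Circle))

theorem posWithCommutingPair_of (h : H486HS.PosS33) :
    PosWithCommutingPair ((𝓡 3).prod (𝓡 3)) (S3 × S3) :=
  ⟨inferInstance, H486HS.s33_connected, h, hasCommutingPair_S33⟩

theorem posTorusBundle_of (h : H486HS.PosS33) :
    PosTorusBundle ((𝓡 3).prod (𝓡 3)) (S3 × S3) ((𝓡 2).prod (𝓡 2)) (S2 × S2) :=
  ⟨inferInstance, H486HS.s33_connected, h, ⟨hopf2PB⟩⟩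

end Pool.Agent.H510R2.HS
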