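import Pool.Agent.H510R2.HS.Cor
import Pool.Agent.H907R2.HO.Strong
import Pool.Agent.H878R5.S24.Fin
import Pool.Agent.H472R3.Topo
import Pool.Agent.H515R2.HS.Pos

/-!
Products of two spheres of dimensions two and three lie in the class of closed simply connected
manifolds admitting positive sectional curvature.
-/

open Bundle Manifold ContDiff Metric
open scoped Topology RealInnerProductSpace

set_option autoImplicit false

noncomputable section

namespace Pool.Agent.H510R2.HS

open Pool.Agent.H821R2 Pool.Agent.H821R3 Pool.Agent.H893R5.HO Pool.Agent.H907R2.HO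

/-- The class `𝒫`: `M` is a compact simply connected smooth manifold without boundary, and it
carries a smooth Riemannian metric whose sectional curvatures are all positive. -/
def InClassP {E : Type} [NormedAddCommGroup E] [NormedSpace ℝ E] [FiniteDimensional ℝ E]
    {H : Type} [TopologicalSpace H] (I : ModelWithCorners ℝ E H)
    (M : Type) [TopologicalSpace M] [ChartedSpace H M] [IsManifold I ∞ M] : Prop :=
  I.Boundaryless ∧ CompactSpace M ∧ T2Space M ∧ SimplyConnectedSpace M ∧ HasPosSec I M

theorem hasPosSec_of_admits {E : Type} [NormedAddCommGroup E] [NormedSpace ℝ E]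
    [FiniteDimensional ℝ E] {H : Type} [TopologicalSpace H] (I : ModelWithCorners ℝ E H)
    (M : Type) [TopologicalSpace M] [ChartedSpace H M] [IsManifold I ∞ M]
    (h : AdmitsPositiveCurvature I M) : HasPosSec I M := by
  obtain ⟨g, ⟨cov, R, h1, h2⟩, h3⟩ := h
  exact ⟨g, cov, R, h1, h2, h3 cov R h1 h2⟩

/-- The product `Sᵐ × Sⁿ` of unit spheres belongs to the class `𝒫`. -/
def SphereProductInP (m n : ℕ) : Prop :=
  InClassP ((𝓡 m).prod (𝓡 n)) (Sph m × Sph n)

theorem inClassP_prod {m n : ℕ} (hm : 2 ≤ m) (hn : 2 ≤ n)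
    (h : HasPosSec ((𝓡 m).prod (𝓡 n)) (Sph m × Sph n)) : SphereProductInP m n := by
  have h1 : SimplyConnectedSpace (Sph m) := Pool.Agent.H472R3.simplyConnected_sph m hm
  have h2 : SimplyConnectedSpace (Sph n) := Pool.Agent.H472R3.simplyConnected_sph n hn
  exact ⟨inferInstance, inferInstance, inferInstance,
    Pool.Agent.H472R3.simplyConnected_prod _ _, h⟩

theorem sphereProductsInP :
    SphereProductInP 2 2 ∧ SphereProductInP 2 3 ∧ SphereProductInP 3 3 :=
  ⟨inClassP_prod le_rfl le_rfl (hasPosSec_of_admits _ _ H907H.hopfStrong),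
    inClassP_prod le_rfl (by norm_num)
      (hasPosSec_of_admits _ _ Pool.Agent.H878R5.product23.2.2),
    inClassP_prod (by norm_num) (by norm_num) H515HS.posS33⟩

end Pool.Agent.H510R2.HS
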