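import Mathlib

/-!
Smooth principal bundles (right action, local trivialisations), products of principal bundles.
-/

open Bundle Manifold ContDiff Set Filter
open scoped Topology

set_option autoImplicit false

noncomputable section

namespace Pool.Agent.H510R2.HS

/-- A smooth principal bundle `proj : P → B` with structure group `G` acting smoothly and freely
on `P` from the right: the orbits are exactly the fibres, and every point of the base has an open
neighbourhood `U` with a smooth equivariant map `τ : proj⁻¹(U) → G` and a smooth section `s` over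
`U`, normalised by `τ ∘ s = 1`.  Then `x ↦ (proj x, τ x)` is a diffeomorphism from `proj⁻¹(U)` onto
`U × G` with inverse `(b, a) ↦ (s b) a`, equivariant for the action of `G`; see
`PrincipalBundle.trivialisation`. -/
structure PrincipalBundle
    {VP : Type*} [NormedAddCommGroup VP] [NormedSpace ℝ VP] {HP : Type*} [TopologicalSpace HP]
    (IP : ModelWithCorners ℝ VP HP) (P : Type*) [TopologicalSpace P] [ChartedSpace HP P]
    {VB : Type*} [NormedAddCommGroup VB] [NormedSpace ℝ VB] {HB : Type*} [TopologicalSpace HB]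
    (IB : ModelWithCorners ℝ VB HB) (B : Type*) [TopologicalSpace B] [ChartedSpace HB B]
    {VG : Type*} [NormedAddCommGroup VG] [NormedSpace ℝ VG] {HG : Type*} [TopologicalSpace HG]
    (IG : ModelWithCorners ℝ VG HG) (G : Type*) [TopologicalSpace G] [ChartedSpace HG G]
    [Group G] where
  /-- the projection -/
  proj : P → B
  /-- the right action -/
  act : P → G → P
  smooth_proj : ContMDiff IP IB ∞ proj
  smooth_act : ContMDiff (IP.prod IG) IP ∞ (fun p : P × G => act p.1 p.2)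
  act_one : ∀ x, act x 1 = x
  act_mul : ∀ x a b, act x (a * b) = act (act x a) b
  free : ∀ x a, act x a = x → a = 1
  surj : Function.Surjective proj
  fib : ∀ x y, proj x = proj y ↔ ∃ a, act x a = y
  loc : ∀ b : B, ∃ (U : Set B) (τ : P → G) (s : B → P), IsOpen U ∧ b ∈ U ∧
    ContMDiffOn IP IG ∞ τ (proj ⁻¹' U) ∧ ContMDiffOn IB IP ∞ s U ∧
    (∀ b ∈ U, proj (s b) = b ∧ τ (s b) = 1) ∧
    ∀ x ∈ proj ⁻¹' U, ∀ a, τ (act x a) = τ x * a

section

variable {VP : Type*} [NormedAddCommGroup VP] [NormedSpace ℝ VP] {HP : Type*}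
  [TopologicalSpace HP] {IP : ModelWithCorners ℝ VP HP} {P : Type*} [TopologicalSpace P]
  [ChartedSpace HP P]
  {VB : Type*} [NormedAddCommGroup VB] [NormedSpace ℝ VB] {HB : Type*} [TopologicalSpace HB]
  {IB : ModelWithCorners ℝ VB HB} {B : Type*} [TopologicalSpace B] [ChartedSpace HB B]
  {VG : Type*} [NormedAddCommGroup VG] [NormedSpace ℝ VG] {HG : Type*} [TopologicalSpace HG]
  {IG : ModelWithCorners ℝ VG HG} {G : Type*} [TopologicalSpace G] [ChartedSpace HG G]
  [Group G]
  {VP' : Type*} [NormedAddCommGroup VP'] [NormedSpace ℝ VP'] {HP' : Type*}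
  [TopologicalSpace HP'] {IP' : ModelWithCorners ℝ VP' HP'} {P' : Type*} [TopologicalSpace P']
  [ChartedSpace HP' P']
  {VB' : Type*} [NormedAddCommGroup VB'] [NormedSpace ℝ VB'] {HB' : Type*} [TopologicalSpace HB']
  {IB' : ModelWithCorners ℝ VB' HB'} {B' : Type*} [TopologicalSpace B'] [ChartedSpace HB' B']
  {VG' : Type*} [NormedAddCommGroup VG'] [NormedSpace ℝ VG'] {HG' : Type*} [TopologicalSpace HG']
  {IG' : ModelWithCorners ℝ VG' HG'} {G' : Type*} [TopologicalSpace G'] [ChartedSpace HG' G']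
  [Group G']

/-- The local trivialisations of a principal bundle: the maps `x ↦ (proj x, τ x)` and
`(b, a) ↦ (s b) a` are inverse to each other, smooth and equivariant. -/
theorem PrincipalBundle.trivialisation (F : PrincipalBundle IP P IB B IG G) (b₀ : B) :
    ∃ (U : Set B) (Φ : P → B × G) (Ψ : B × G → P), IsOpen U ∧ b₀ ∈ U ∧
      ContMDiffOn IP (IB.prod IG) ∞ Φ (F.proj ⁻¹' U) ∧
      ContMDiffOn (IB.prod IG) IP ∞ Ψ (U ×ˢ univ) ∧
      MapsTo Φ (F.proj ⁻¹' U) (U ×ˢ univ) ∧ MapsTo Ψ (U ×ˢ univ) (F.proj ⁻¹' U) ∧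
      (∀ x ∈ F.proj ⁻¹' U, Ψ (Φ x) = x) ∧ (∀ q ∈ U ×ˢ (univ : Set G), Φ (Ψ q) = q) ∧
      (∀ x, (Φ x).1 = F.proj x) ∧
      ∀ x ∈ F.proj ⁻¹' U, ∀ a, Φ (F.act x a) = ((Φ x).1, (Φ x).2 * a) := by
  obtain ⟨U, τ, s, hU, hb, hτ, hs, hst, heq⟩ := F.loc b₀
  have hpa : ∀ x a, F.proj (F.act x a) = F.proj x := fun x a =>
    ((F.fib x (F.act x a)).2 ⟨a, rfl⟩).symm
  refine ⟨U, fun x => (F.proj x, τ x), fun q => F.act (s q.1) q.2, hU, hb, ?_, ?_, ?_, ?_, ?_, ?_,
    fun x => rfl, ?_⟩
  · exact F.smooth_proj.contMDiffOn.prodMk hτ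
  · have h1 : ContMDiffOn (IB.prod IG) IP ∞ (fun q : B × G => s q.1) (U ×ˢ univ) :=
      hs.comp contMDiffOn_fst (fun q hq => hq.1)
    have h2 : ContMDiffOn (IB.prod IG) (IP.prod IG) ∞ (fun q : B × G => (s q.1, q.2))
        (U ×ˢ univ) := h1.prodMk contMDiffOn_snd
    exact F.smooth_act.comp_contMDiffOn h2
  · intro x hx
    exact ⟨hx, mem_univ _⟩
  · intro q hq
    change F.proj (F.act (s q.1) q.2) ∈ U
    rw [hpa, (hst q.1 hq.1).1]
    exact hq.1
  · intro x hx
    change F.act (s (F.proj x)) (τ x) = x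
    obtain ⟨a, ha⟩ := (F.fib (s (F.proj x)) x).1 (hst (F.proj x) hx).1
    have hm : s (F.proj x) ∈ F.proj ⁻¹' U := by
      change F.proj (s (F.proj x)) ∈ U
      rw [(hst (F.proj x) hx).1]
      exact hx
    have h1 := heq (s (F.proj x)) hm a
    rw [ha, (hst (F.proj x) hx).2, one_mul] at h1
    rw [h1, ha]
  · intro q hq
    have hm : s q.1 ∈ F.proj ⁻¹' U := by
      change F.proj (s q.1) ∈ U
      rw [(hst q.1 hq.1).1]
      exact hq.1
    change (F.proj (F.act (s q.1) q.2), τ (F.act (s q.1) q.2)) = q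
    rw [hpa, (hst q.1 hq.1).1, heq _ hm, (hst q.1 hq.1).2, one_mul]
  · intro x hx a
    change (F.proj (F.act x a), τ (F.act x a)) = (F.proj x, τ x * a)
    rw [hpa, heq x hx]

/-- The product of two principal bundles. -/
def PrincipalBundle.prod (F : PrincipalBundle IP P IB B IG G)
    (F' : PrincipalBundle IP' P' IB' B' IG' G') :
    PrincipalBundle (IP.prod IP') (P × P') (IB.prod IB') (B × B') (IG.prod IG') (G × G') where
  proj x := (F.proj x.1, F'.proj x.2)
  act x a := (F.act x.1 a.1, F'.act x.2 a.2)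
  smooth_proj := (F.smooth_proj.comp contMDiff_fst).prodMk (F'.smooth_proj.comp contMDiff_snd)
  smooth_act := by
    have h1 : ContMDiff ((IP.prod IP').prod (IG.prod IG')) (IP.prod IG) ∞
        (fun q : (P × P') × (G × G') => (q.1.1, q.2.1)) :=
      (contMDiff_fst.comp contMDiff_fst).prodMk (contMDiff_fst.comp contMDiff_snd)
    have h2 : ContMDiff ((IP.prod IP').prod (IG.prod IG')) (IP'.prod IG') ∞
        (fun q : (P × P') × (G × G') => (q.1.2, q.2.2)) :=
      (contMDiff_snd.comp contMDiff_fst).prodMk (contMDiff_snd.comp contMDiff_snd)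
    exact (F.smooth_act.comp h1).prodMk (F'.smooth_act.comp h2)
  act_one x := by
    change (F.act x.1 1, F'.act x.2 1) = x
    rw [F.act_one, F'.act_one]
  act_mul x a b := by
    change (F.act x.1 (a.1 * b.1), F'.act x.2 (a.2 * b.2)) = _
    rw [F.act_mul, F'.act_mul]
  free x a h := Prod.ext (F.free _ _ (congrArg Prod.fst h)) (F'.free _ _ (congrArg Prod.snd h))
  surj b := by
    obtain ⟨x, hx⟩ := F.surj b.1
    obtain ⟨x', hx'⟩ := F'.surj b.2
    exact ⟨(x, x'), Prod.ext hx hx'⟩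
  fib x y := by
    constructor
    · intro h
      obtain ⟨a, ha⟩ := (F.fib _ _).1 (congrArg Prod.fst h)
      obtain ⟨a', ha'⟩ := (F'.fib _ _).1 (congrArg Prod.snd h)
      exact ⟨(a, a'), Prod.ext ha ha'⟩
    · rintro ⟨a, ha⟩
      exact Prod.ext ((F.fib _ _).2 ⟨a.1, congrArg Prod.fst ha⟩)
        ((F'.fib _ _).2 ⟨a.2, congrArg Prod.snd ha⟩)
  loc b := by
    obtain ⟨U, τ, s, hU, hb, hτ, hs, hst, heq⟩ := F.loc b.1
    obtain ⟨U', τ', s', hU', hb', hτ', hs', hst', heq'⟩ := F'.loc b.2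
    refine ⟨U ×ˢ U', fun x => (τ x.1, τ' x.2), fun c => (s c.1, s' c.2), hU.prod hU', ⟨hb, hb'⟩,
      ?_, ?_, ?_, ?_⟩
    · exact (hτ.comp contMDiffOn_fst (fun x hx => hx.1)).prodMk
        (hτ'.comp contMDiffOn_snd (fun x hx => hx.2))
    · exact (hs.comp contMDiffOn_fst (fun x hx => hx.1)).prodMk
        (hs'.comp contMDiffOn_snd (fun x hx => hx.2))
    · intro c hc
      exact ⟨Prod.ext (hst _ hc.1).1 (hst' _ hc.2).1, Prod.ext (hst _ hc.1).2 (hst' _ hc.2).2⟩
    · intro x hx a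
      exact Prod.ext (heq _ hx.1 _) (heq' _ hx.2 _)

end

end Pool.Agent.H510R2.HS
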